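import Mathlib
import Pool.Agent.Lib_helper95.RC.Defs

/-!
# Monotonicity of convex monotone trace functions
-/

open scoped BigOperators ComplexOrder Kronecker MatrixOrder
open Matrix

namespace Pool.Agent.Lib_helper13.GC34

open Pool.Agent.RC

variable {n : Type} [Fintype n] [DecidableEq n]

theorem conj_diag_entry (X : Matrix n n ℂ) (p : n → ℝ) (i : n) :
    (X * diagonal (fun i => (p i : ℂ)) * Xᴴ) i i = ((∑ j, Complex.normSq (X i j) * p j : ℝ) : ℂ) := by
  rw [Matrix.mul_apply]
  push_cast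
  refine Finset.sum_congr rfl fun j _ => ?_
  rw [mul_diagonal, conjTranspose_apply, Complex.normSq_eq_conj_mul_self]
  simp only [Complex.star_def]
  ring

theorem normSq_row_sum {X : Matrix n n ℂ} (hX : X * Xᴴ = 1) (i : n) :
    ∑ j, Complex.normSq (X i j) = 1 := by
  have h := conj_diag_entry X (fun _ => 1) i
  simp only [Complex.ofReal_one, diagonal_one, hX, Matrix.one_apply_eq,
    mul_one] at h
  exact_mod_cast h.symm

theorem normSq_col_sum {X : Matrix n n ℂ} (hX : Xᴴ * X = 1) (j : n) :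
    ∑ i, Complex.normSq (X i j) = 1 := by
  have h := normSq_row_sum (X := Xᴴ) (by rwa [conjTranspose_conjTranspose]) j
  simpa [conjTranspose_apply] using h

/-- spectral decomposition with explicit unitary -/
theorem exists_spec {M : Matrix n n ℂ} (h : M.IsHermitian) :
    ∃ U : Matrix n n ℂ, U * Uᴴ = 1 ∧ Uᴴ * U = 1 ∧
      M = U * diagonal (fun i => (h.eigenvalues i : ℂ)) * Uᴴ := by
  refine ⟨(h.eigenvectorUnitary : Matrix n n ℂ), ?_, ?_, ?_⟩
  · exact (Matrix.mem_unitaryGroup_iff.1 h.eigenvectorUnitary.2)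
  · exact (Matrix.mem_unitaryGroup_iff'.1 h.eigenvectorUnitary.2)
  · have := h.spectral_theorem
    rw [Unitary.conjStarAlgAut_apply] at this
    exact this

/-- Peierls' inequality -/
theorem peierls {f : ℝ → ℝ} (hf : ConvexOn ℝ Set.univ f) {Y U : Matrix n n ℂ}
    (hY : Y.IsHermitian) (hU : U * Uᴴ = 1) (hU' : Uᴴ * U = 1) :
    ∑ i, f ((Uᴴ * Y * U) i i).re ≤ trF f Y := by
  obtain ⟨V, hV, hV', hYV⟩ := exists_spec hY
  set p := hY.eigenvalues with hp
  set X : Matrix n n ℂ := Uᴴ * V with hX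
  have hXX : X * Xᴴ = 1 := by
    rw [hX, conjTranspose_mul, conjTranspose_conjTranspose, Matrix.mul_assoc,
      ← Matrix.mul_assoc V, hV, Matrix.one_mul, hU']
  have hXX' : Xᴴ * X = 1 := by
    rw [hX, conjTranspose_mul, conjTranspose_conjTranspose, Matrix.mul_assoc,
      ← Matrix.mul_assoc U, hU, Matrix.one_mul, hV']
  have hent : ∀ i, ((Uᴴ * Y * U) i i).re = ∑ j, Complex.normSq (X i j) * p j := by
    intro i
    have e : Uᴴ * Y * U = X * diagonal (fun i => (p i : ℂ)) * Xᴴ := by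
      rw [hX, conjTranspose_mul, conjTranspose_conjTranspose, hYV]
      simp only [Matrix.mul_assoc]
    rw [e, conj_diag_entry]
    simp
  unfold trF
  rw [dif_pos hY]
  have h1 : ∀ i, f ((Uᴴ * Y * U) i i).re ≤
      ∑ j, Complex.normSq (X i j) * f (p j) := fun i => by
    rw [hent i]
    have := hf.map_sum_le (t := Finset.univ) (w := fun j => Complex.normSq (X i j)) (p := p)
      (fun j _ => Complex.normSq_nonneg _) (normSq_row_sum hXX i) (fun j _ => Set.mem_univ _)
    simpa [smul_eq_mul] using this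
  refine (Finset.sum_le_sum fun i _ => h1 i).trans (le_of_eq ?_)
  rw [Finset.sum_comm]
  refine Finset.sum_congr rfl fun j _ => ?_
  rw [← Finset.sum_mul, normSq_col_sum hXX' j, one_mul]

/-- `Tr f(X) ≤ Tr f(Y)` for `X ≤ Y`, `f` convex and monotone. -/
theorem trF_mono {f : ℝ → ℝ} (hf : ConvexOn ℝ Set.univ f) (hm : Monotone f)
    {X Y : Matrix n n ℂ} (hX : X.IsHermitian) (hY : Y.IsHermitian)
    (hXY : (Y - X).PosSemidef) : trF f X ≤ trF f Y := by
  obtain ⟨U, hU, hU', hXU⟩ := exists_spec hX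
  refine le_trans ?_ (peierls hf hY hU hU')
  unfold trF
  rw [dif_pos hX]
  apply Finset.sum_le_sum
  intro i _
  apply hm
  have e1 : Uᴴ * X * U = diagonal (fun i => (hX.eigenvalues i : ℂ)) := by
    conv_lhs => rw [hXU]
    calc Uᴴ * (U * diagonal (fun i => (hX.eigenvalues i : ℂ)) * Uᴴ) * U
        = (Uᴴ * U) * diagonal (fun i => (hX.eigenvalues i : ℂ)) * (Uᴴ * U) := by
          simp only [Matrix.mul_assoc]
      _ = _ := by rw [hU']; simp
  have e2 : ((Uᴴ * X * U) i i).re = hX.eigenvalues i := by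
    rw [e1]; simp
  rw [← e2]
  have h3 : (Uᴴ * (Y - X) * U).PosSemidef := hXY.conjTranspose_mul_mul_same U
  have h4 := h3.diag_nonneg (i := i)
  rw [Matrix.mul_sub, Matrix.sub_mul, Matrix.sub_apply] at h4
  have h5 := (Complex.le_def.1 h4).1
  simp only [Complex.zero_re, Complex.sub_re] at h5
  linarith

/-- the cube of the positive part is convex -/
theorem convexOn_posPow {p : ℝ} (hp : 1 ≤ p) :
    ConvexOn ℝ Set.univ (fun x : ℝ => (max x 0) ^ p) := by
  have h1 : ConvexOn ℝ (Set.Ici (0:ℝ)) (fun x : ℝ => x ^ p) := convexOn_rpow hp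
  have h2 : ConvexOn ℝ Set.univ (fun x : ℝ => max x 0) :=
    (convexOn_id convex_univ).sup (convexOn_const 0 convex_univ)
  refine ⟨convex_univ, fun x _ y _ a b ha hb hab => ?_⟩
  have k1 := h2.2 (Set.mem_univ x) (Set.mem_univ y) ha hb hab
  have k2 := h1.2 (x := max x 0) (y := max y 0) (Set.mem_Ici.2 (le_max_right x 0))
    (Set.mem_Ici.2 (le_max_right y 0)) ha hb hab
  refine le_trans (Real.rpow_le_rpow (le_max_right _ _) k1 (by linarith)) k2

theorem convexOn_posPow_nat {p : ℕ} (hp : 1 ≤ p) :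
    ConvexOn ℝ Set.univ (fun x : ℝ => (max x 0) ^ p) := by
  have := convexOn_posPow (p := (p : ℝ)) (by exact_mod_cast hp)
  simpa [Real.rpow_natCast] using this

theorem monotone_posPow {p : ℝ} (hp : 0 ≤ p) : Monotone (fun x : ℝ => (max x 0) ^ p) :=
  fun _ _ h => Real.rpow_le_rpow (le_max_right _ _) (max_le_max h le_rfl) hp

theorem monotone_posPow_nat (p : ℕ) : Monotone (fun x : ℝ => (max x 0) ^ p) :=
  fun _ _ h => pow_le_pow_left₀ (le_max_right _ _) (max_le_max h le_rfl) p

theorem trF_nonneg {f : ℝ → ℝ} (hf : ∀ x, 0 ≤ f x) (X : Matrix n n ℂ) : 0 ≤ trF f X := by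
  unfold trF
  split_ifs with h
  · exact Finset.sum_nonneg fun _ _ => hf _
  · exact le_rfl

/-- the positive part of a negative semidefinite matrix vanishes -/
theorem trF_posPow_zero {p : ℕ} (hp : p ≠ 0) {X : Matrix n n ℂ} (hX : (-X).PosSemidef) :
    trF (fun x : ℝ => (max x 0) ^ p) X = 0 := by
  have hXh : X.IsHermitian := by
    have := hX.isHermitian.neg
    rwa [neg_neg] at this
  unfold trF
  rw [dif_pos hXh]
  apply Finset.sum_eq_zero
  intro i _
  have h0 : hXh.eigenvalues i ≤ 0 := by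
    obtain ⟨U, hU, hU', hXU⟩ := exists_spec hXh
    have h3 : (Uᴴ * (-X) * U).PosSemidef := hX.conjTranspose_mul_mul_same U
    have h4 := h3.diag_nonneg (i := i)
    have e1 : Uᴴ * (-X) * U = -diagonal (fun i => (hXh.eigenvalues i : ℂ)) := by
      conv_lhs => rw [hXU]
      calc Uᴴ * (-(U * diagonal (fun i => (hXh.eigenvalues i : ℂ)) * Uᴴ)) * U
          = -((Uᴴ * U) * diagonal (fun i => (hXh.eigenvalues i : ℂ)) * (Uᴴ * U)) := by
            noncomm_ring
        _ = _ := by rw [hU']; simp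
    rw [e1] at h4
    have h5 := (Complex.le_def.1 h4).1
    simp only [Complex.zero_re, Matrix.neg_apply, diagonal_apply_eq, Complex.neg_re,
      Complex.ofReal_re] at h5
    linarith
  show (max (hXh.eigenvalues i) 0) ^ p = 0
  rw [max_eq_right h0, zero_pow hp]

/-- **Comparison step**: enlarging `C` by `F` and `D` by `-F/b`. -/
theorem comparison {C D F : Matrix n n ℂ} {b β lam s : ℝ} (p : ℕ) (hp : 1 ≤ p)
    (hC : C.PosSemidef) (hD : D.IsHermitian) (hF : F.PosSemidef) (hb : 0 < b)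
    (hE : (C + (b : ℂ) • D).PosSemidef) (hβ0 : 0 ≤ β) (hlam : 0 ≤ lam)
    (hs : 0 ≤ s) :
    trF (fun x : ℝ => (max x 0) ^ p)
        (C - (lam : ℂ) • (1 : Matrix n n ℂ) - (s : ℂ) • (C + (β : ℂ) • D)) ≤
      trF (fun x : ℝ => (max x 0) ^ p)
        ((C + F) - (lam : ℂ) • (1 : Matrix n n ℂ) -
          (s : ℂ) • ((C + F) + (β : ℂ) • (D - ((b : ℂ)⁻¹) • F))) := by
  have hbc : (b : ℂ) ≠ 0 := by exact_mod_cast hb.ne'
  have hreal : ∀ r : ℝ, star (r : ℂ) = r := fun r => Complex.conj_ofReal r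
  have hreali : ∀ r : ℝ, star ((r : ℂ)⁻¹) = (r : ℂ)⁻¹ := fun r => by
    rw [star_inv₀, hreal]
  have hX : (C - (lam : ℂ) • (1 : Matrix n n ℂ) - (s : ℂ) • (C + (β : ℂ) • D)).IsHermitian := by
    simp only [IsHermitian, conjTranspose_add, conjTranspose_sub, conjTranspose_smul,
      hC.isHermitian.eq, hD.eq, conjTranspose_one, hreal]
  have hY : ((C + F) - (lam : ℂ) • (1 : Matrix n n ℂ) -
          (s : ℂ) • ((C + F) + (β : ℂ) • (D - ((b : ℂ)⁻¹) • F))).IsHermitian := by
    simp only [IsHermitian, conjTranspose_add, conjTranspose_sub, conjTranspose_smul,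
      hC.isHermitian.eq, hD.eq, hF.isHermitian.eq, conjTranspose_one, hreal, hreali]
  by_cases hcase : s * (1 - β / b) ≤ 1
  · apply trF_mono (convexOn_posPow_nat hp) (monotone_posPow_nat p) hX hY
    have e : (C + F) - (lam : ℂ) • (1 : Matrix n n ℂ) -
          (s : ℂ) • ((C + F) + (β : ℂ) • (D - ((b : ℂ)⁻¹) • F)) -
        (C - (lam : ℂ) • (1 : Matrix n n ℂ) - (s : ℂ) • (C + (β : ℂ) • D)) =
        ((1 - s * (1 - β / b) : ℝ) : ℂ) • F := by
      ext i j
      simp only [Matrix.add_apply, Matrix.sub_apply, Matrix.smul_apply, smul_eq_mul]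
      push_cast
      field_simp
      ring
    rw [e]
    exact hF.smul (by exact_mod_cast sub_nonneg.2 hcase)
  · push Not at hcase
    rw [trF_posPow_zero (by omega)]
    · exact trF_nonneg (fun x => pow_nonneg (le_max_right _ _) _) _
    · have e : -(C - (lam : ℂ) • (1 : Matrix n n ℂ) - (s : ℂ) • (C + (β : ℂ) • D)) =
          ((s * (1 - β / b) - 1 : ℝ) : ℂ) • C + ((s * (β / b) : ℝ) : ℂ) • (C + (b : ℂ) • D) +
            (lam : ℂ) • (1 : Matrix n n ℂ) := by
        ext i j
        simp only [Matrix.add_apply, Matrix.sub_apply, Matrix.neg_apply, Matrix.smul_apply,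
          smul_eq_mul]
        push_cast
        field_simp
        ring
      rw [e]
      refine ((hC.smul ?_).add (hE.smul ?_)).add (PosSemidef.one.smul ?_)
      · exact_mod_cast (sub_pos.2 hcase).le
      · exact_mod_cast (by positivity : (0:ℝ) ≤ s * (β / b))
      · exact_mod_cast hlam

end Pool.Agent.Lib_helper13.GC34
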