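import Mathlib
import Pool.Agent.Lib_helper95.RC.Defs
import Pool.Agent.Lib_helper13.GC34.Mono

/-!
# Comparison of the integrals (block B3)
-/

open scoped BigOperators ComplexOrder Kronecker MatrixOrder
open Matrix MeasureTheory Set

namespace Pool.Agent.Lib_helper13.GC34

open Pool.Agent.RC

variable {n : Type} [Fintype n] [DecidableEq n]

/-- `(trace (cfc f M)).re` is `RC.trF` -/
theorem trace_cfc_re_eq {M : Matrix n n ℂ} (h : M.IsHermitian) (f : ℝ → ℝ) :
    (trace (cfc f M)).re = trF f M := by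
  unfold trF
  rw [dif_pos h, h.cfc_eq, Matrix.IsHermitian.cfc, Unitary.conjStarAlgAut_apply]
  rw [Matrix.mul_assoc, trace_mul_comm, Matrix.mul_assoc]
  have h1 : (star (h.eigenvectorUnitary : Matrix n n ℂ)) * (h.eigenvectorUnitary : Matrix n n ℂ) = 1 :=
    Matrix.mem_unitaryGroup_iff'.1 h.eigenvectorUnitary.2
  rw [h1, Matrix.mul_one, trace_diagonal]
  simp

/-- lower bound from the eigenvalues -/
theorem psd_sub_smul_one {M : Matrix n n ℂ} (h : M.IsHermitian) {δ : ℝ}
    (hδ : ∀ i, δ ≤ h.eigenvalues i) : (M - δ • (1 : Matrix n n ℂ)).PosSemidef := by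
  obtain ⟨U, hU, hU', hM⟩ := exists_spec h
  have e : M - δ • (1 : Matrix n n ℂ) =
      U * diagonal (fun i => ((h.eigenvalues i - δ : ℝ) : ℂ)) * Uᴴ := by
    have e1 : diagonal (fun i => ((h.eigenvalues i - δ : ℝ) : ℂ)) =
        diagonal (fun i => (h.eigenvalues i : ℂ)) - (δ : ℂ) • (1 : Matrix n n ℂ) := by
      ext i j
      by_cases hij : i = j
      · subst hij; simp
      · simp [hij]
    rw [e1, Matrix.mul_sub, Matrix.sub_mul, ← hM, Matrix.mul_smul, Matrix.smul_mul,
      Matrix.mul_one, hU]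
    rfl
  rw [e]
  apply PosSemidef.mul_mul_conjTranspose_same
  refine posSemidef_diagonal_iff.2 fun i => ?_
  exact_mod_cast sub_nonneg.2 (hδ i)

theorem psd_smul_one_sub {M : Matrix n n ℂ} (h : M.IsHermitian) {K : ℝ}
    (hK : ∀ i, h.eigenvalues i ≤ K) : (K • (1 : Matrix n n ℂ) - M).PosSemidef := by
  obtain ⟨U, hU, hU', hM⟩ := exists_spec h
  have e : K • (1 : Matrix n n ℂ) - M =
      U * diagonal (fun i => ((K - h.eigenvalues i : ℝ) : ℂ)) * Uᴴ := by
    have e1 : diagonal (fun i => ((K - h.eigenvalues i : ℝ) : ℂ)) =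
        (K : ℂ) • (1 : Matrix n n ℂ) - diagonal (fun i => (h.eigenvalues i : ℂ)) := by
      ext i j
      by_cases hij : i = j
      · subst hij; simp
      · simp [hij]
    rw [e1, Matrix.mul_sub, Matrix.sub_mul, ← hM, Matrix.mul_smul, Matrix.smul_mul,
      Matrix.mul_one, hU]
    rfl
  rw [e]
  apply PosSemidef.mul_mul_conjTranspose_same
  refine posSemidef_diagonal_iff.2 fun i => ?_
  exact_mod_cast sub_nonneg.2 (hK i)

/-- for large `s` the matrix `s H` dominates `X` -/
theorem exists_dominates {X H : Matrix n n ℂ} (hX : X.IsHermitian) (hH : H.PosDef) :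
    ∃ S : ℝ, 0 < S ∧ ∀ s, S ≤ s → (-(X - s • H)).PosSemidef := by
  obtain ⟨δ, hδ0, hδ⟩ : ∃ δ : ℝ, 0 < δ ∧ ∀ i, δ ≤ hH.isHermitian.eigenvalues i := by
    rcases isEmpty_or_nonempty n with he | hne
    · exact ⟨1, one_pos, fun i => (he.false i).elim⟩
    · obtain ⟨i0, hi0⟩ := Finite.exists_min hH.isHermitian.eigenvalues
      exact ⟨_, hH.eigenvalues_pos i0, hi0⟩
  obtain ⟨K, hK0, hK⟩ : ∃ K : ℝ, 0 < K ∧ ∀ i, hX.eigenvalues i ≤ K := by
    rcases isEmpty_or_nonempty n with he | hne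
    · exact ⟨1, one_pos, fun i => (he.false i).elim⟩
    · obtain ⟨i0, hi0⟩ := Finite.exists_max hX.eigenvalues
      exact ⟨max (hX.eigenvalues i0) 1, lt_of_lt_of_le one_pos (le_max_right _ _),
        fun i => (hi0 i).trans (le_max_left _ _)⟩
  refine ⟨K / δ, by positivity, fun s hs => ?_⟩
  have h1 := psd_sub_smul_one hH.isHermitian hδ
  have h2 := psd_smul_one_sub hX hK
  have hs0 : 0 ≤ s := le_trans (by positivity) hs
  have hs1 : 0 ≤ s * δ - K := by
    rw [div_le_iff₀ hδ0] at hs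
    linarith
  have e : -(X - s • H) = s • (H - δ • (1 : Matrix n n ℂ)) + (K • (1 : Matrix n n ℂ) - X) +
      (s * δ - K) • (1 : Matrix n n ℂ) := by
    module
  rw [e]
  exact ((h1.smul hs0).add h2).add (PosSemidef.one.smul hs1)

theorem isHermitian_sub_smul {X H : Matrix n n ℂ} (hX : X.IsHermitian) (hH : H.IsHermitian)
    (s : ℝ) : (X - s • H).IsHermitian := by
  apply hX.sub
  have : (s • H)ᴴ = s • H := by
    rw [conjTranspose_smul, hH.eq]; simp
  exact this

/-- integrability of `s ↦ Tr (X - s H)_+^p` for `H > 0` -/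
theorem integrableOn_trF_pos {X H : Matrix n n ℂ} {p : ℕ} (hp : 1 ≤ p) (hX : X.IsHermitian)
    (hH : H.PosDef) :
    IntegrableOn (fun s : ℝ => trF (fun x : ℝ => (max x 0) ^ p) (X - s • H)) (Ioi 0) := by
  obtain ⟨S, hS0, hS⟩ := exists_dominates hX hH
  have hanti : Antitone (fun s : ℝ => trF (fun x : ℝ => (max x 0) ^ p) (X - s • H)) := by
    intro s t hst
    apply trF_mono (convexOn_posPow_nat hp) (monotone_posPow_nat p)
      (isHermitian_sub_smul hX hH.isHermitian t) (isHermitian_sub_smul hX hH.isHermitian s)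
    have e : X - s • H - (X - t • H) = (t - s) • H := by module
    rw [e]
    exact hH.posSemidef.smul (sub_nonneg.2 hst)
  have h1 : IntegrableOn (fun s : ℝ => trF (fun x : ℝ => (max x 0) ^ p) (X - s • H))
      (Icc 0 S) := (hanti.antitoneOn _).integrableOn_isCompact isCompact_Icc
  have h2 : IntegrableOn (fun s : ℝ => trF (fun x : ℝ => (max x 0) ^ p) (X - s • H))
      (Ioi S) := by
    refine (integrableOn_zero (s := Ioi S) (μ := volume) (ε' := ℝ)).congr_fun ?_ measurableSet_Ioi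
    intro s hs
    exact (trF_posPow_zero (by omega) (hS s (le_of_lt hs))).symm
  refine (h1.union h2).mono_set ?_
  intro s hs
  rcases le_or_gt s S with h | h
  · exact Or.inl ⟨le_of_lt hs, h⟩
  · exact Or.inr h

/-- comparison with real scalars acting by `•` -/
theorem comparison_real {C D F : Matrix n n ℂ} {b β lam s : ℝ} (p : ℕ) (hp : 1 ≤ p)
    (hC : C.PosSemidef) (hD : D.IsHermitian) (hF : F.PosSemidef) (hb : 0 < b)
    (hE : (C + b • D).PosSemidef) (hβ0 : 0 ≤ β) (hlam : 0 ≤ lam) (hs : 0 ≤ s) :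
    trF (fun x : ℝ => (max x 0) ^ p)
        (C - lam • (1 : Matrix n n ℂ) - s • (C + β • D)) ≤
      trF (fun x : ℝ => (max x 0) ^ p)
        ((C + F) - lam • (1 : Matrix n n ℂ) - s • ((C + F) + β • (D - b⁻¹ • F))) := by
  have h := comparison (lam := lam) p hp hC hD hF hb (β := β) (by exact hE) hβ0 hlam hs
  have e1 : C - lam • (1 : Matrix n n ℂ) - s • (C + β • D) =
      C - (lam : ℂ) • (1 : Matrix n n ℂ) - (s : ℂ) • (C + (β : ℂ) • D) := rfl
  have e2 : (C + F) - lam • (1 : Matrix n n ℂ) - s • ((C + F) + β • (D - b⁻¹ • F)) =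
      (C + F) - (lam : ℂ) • (1 : Matrix n n ℂ) -
          (s : ℂ) • ((C + F) + (β : ℂ) • (D - ((b : ℂ)⁻¹) • F)) := by
    have : b⁻¹ • F = ((b : ℂ)⁻¹) • F := by
      ext i j
      simp only [Matrix.smul_apply, Complex.real_smul, smul_eq_mul, Complex.ofReal_inv]
    rw [this]
    rfl
  rw [e1, e2]
  exact h

/-- **Block B3**: comparison of the integrals. -/
theorem comparison_integral {C D F : Matrix n n ℂ} {b β lam : ℝ} (p : ℕ) (hp : 1 ≤ p)
    (hC : C.PosSemidef) (hD : D.IsHermitian) (hF : F.PosSemidef) (hb : 0 < b)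
    (hE : (C + b • D).PosSemidef) (hβ0 : 0 ≤ β) (hlam : 0 ≤ lam)
    (hH : ((C + F) + β • (D - b⁻¹ • F)).PosDef) :
    ∫ s in Ioi (0 : ℝ), (trace (cfc (fun x : ℝ => (max x 0) ^ p)
        (C - lam • (1 : Matrix n n ℂ) - s • (C + β • D)))).re ≤
      ∫ s in Ioi (0 : ℝ), (trace (cfc (fun x : ℝ => (max x 0) ^ p)
        ((C + F) - lam • (1 : Matrix n n ℂ) - s • ((C + F) + β • (D - b⁻¹ • F))))).re := by
  have h1 : (1 : Matrix n n ℂ).IsHermitian := isHermitian_one
  have hsm : ∀ (r : ℝ) {M : Matrix n n ℂ}, M.IsHermitian → (r • M).IsHermitian := by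
    intro r M hM
    have : (r • M)ᴴ = r • M := by rw [conjTranspose_smul, hM.eq]; simp
    exact this
  have hX1 : (C - lam • (1 : Matrix n n ℂ)).IsHermitian := hC.isHermitian.sub (hsm _ h1)
  have hX2 : ((C + F) - lam • (1 : Matrix n n ℂ)).IsHermitian :=
    (hC.isHermitian.add hF.isHermitian).sub (hsm _ h1)
  have hH1 : (C + β • D).IsHermitian := hC.isHermitian.add (hsm _ hD)
  have e1 : ∀ s : ℝ, (trace (cfc (fun x : ℝ => (max x 0) ^ p)
        (C - lam • (1 : Matrix n n ℂ) - s • (C + β • D)))).re =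
      trF (fun x : ℝ => (max x 0) ^ p) (C - lam • (1 : Matrix n n ℂ) - s • (C + β • D)) :=
    fun s => trace_cfc_re_eq (isHermitian_sub_smul hX1 hH1 s) _
  have e2 : ∀ s : ℝ, (trace (cfc (fun x : ℝ => (max x 0) ^ p)
        ((C + F) - lam • (1 : Matrix n n ℂ) - s • ((C + F) + β • (D - b⁻¹ • F))))).re =
      trF (fun x : ℝ => (max x 0) ^ p)
        ((C + F) - lam • (1 : Matrix n n ℂ) - s • ((C + F) + β • (D - b⁻¹ • F))) :=
    fun s => trace_cfc_re_eq (isHermitian_sub_smul hX2 hH.isHermitian s) _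
  simp_rw [e1, e2]
  refine integral_mono_of_nonneg ?_ (integrableOn_trF_pos hp hX2 hH) ?_
  · exact Filter.Eventually.of_forall fun s =>
      trF_nonneg (fun x => pow_nonneg (le_max_right _ _) _) _
  · refine (ae_restrict_iff' measurableSet_Ioi).2 (Filter.Eventually.of_forall fun s hs => ?_)
    exact comparison_real p hp hC hD hF hb hE hβ0 hlam (le_of_lt hs)

end Pool.Agent.Lib_helper13.GC34
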