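import Pool.Agent.Lib_helper31.GC34.Defs
import Pool.Agent.Lib_helper13.GC34.Cmp

/-!
# MP_859019_mp, `α ∈ [3,4]`: block B3 (comparison)
-/

open scoped BigOperators ComplexOrder Kronecker MatrixOrder
open MeasureTheory Set Matrix

namespace Pool.Agent.Lib_helper13.GC34

open Pool.Agent.GC34 Pool.Agent.RC

variable {κ : Type} [Fintype κ] [DecidableEq κ]

theorem tf_eq_trF {M : Matrix κ κ ℂ} (h : M.IsHermitian) (f : ℝ → ℝ) : tf f M = trF f M :=
  trace_cfc_re_eq h f

theorem dg_isHermitian (c : κ → ℝ) : (dg c).IsHermitian := by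
  unfold dg
  apply Matrix.isHermitian_diagonal_of_self_adjoint
  ext i
  simp

theorem dg_psd {c : κ → ℝ} (h : ∀ k, 0 ≤ c k) : (dg c).PosSemidef := by
  unfold dg
  refine posSemidef_diagonal_iff.2 fun i => ?_
  exact_mod_cast h i

theorem dg_add (c d : κ → ℝ) : dg c + dg d = dg fun k => c k + d k := by
  unfold dg
  ext i j
  by_cases h : i = j
  · subst h; simp
  · simp [h]

theorem dg_sub_smul_one (c : κ → ℝ) (μ : ℝ) : dg c - μ • (1 : Matrix κ κ ℂ) =
    dg fun k => c k - μ := by
  unfold dg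
  ext i j
  by_cases h : i = j
  · subst h; simp
  · simp [h]

theorem compare {g : κ → ℝ} (hg : ∀ k, 0 < g k) {μ : ℝ} (hμ : 0 ≤ μ) {H : Matrix κ κ ℂ}
    (hH : H.PosDef) {θ : ℝ} (hθ : 0 < θ) (hθH : (H - θ • dg g).PosSemidef) :
    J3 (dg g - μ • 1) H ≤
      J3 (dg fun k => max (g k - μ) 0) (H + θ • dg fun k => max (μ - g k) 0) := by
  set F : Matrix κ κ ℂ := dg fun k => max (μ - g k) 0 with hF
  have hFp : F.PosSemidef := dg_psd fun k => le_max_right _ _
  have hX : (dg g - μ • (1 : Matrix κ κ ℂ)).IsHermitian := by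
    rw [dg_sub_smul_one]; exact dg_isHermitian _
  have hXF : (dg fun k => max (g k - μ) 0) = (dg g - μ • (1 : Matrix κ κ ℂ)) + F := by
    rw [dg_sub_smul_one, hF, dg_add]
    congr 1
    ext k
    rcases le_total (g k) μ with h | h
    · rw [max_eq_right (by linarith), max_eq_left (by linarith)]; ring
    · rw [max_eq_left (by linarith), max_eq_right (by linarith)]; ring
  have hX' : (dg fun k => max (g k - μ) 0).IsHermitian := dg_isHermitian _
  have hH' : (H + θ • F).PosDef := hH.add_posSemidef (hFp.smul hθ.le)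
  have e1 : ∀ s : ℝ, tf (fun x : ℝ => (max x 0) ^ 3) (dg g - μ • (1 : Matrix κ κ ℂ) - s • H) =
      trF (fun x : ℝ => (max x 0) ^ 3) (dg g - μ • (1 : Matrix κ κ ℂ) - s • H) :=
    fun s => tf_eq_trF (isHermitian_sub_smul hX hH.isHermitian s) _
  have e2 : ∀ s : ℝ, tf (fun x : ℝ => (max x 0) ^ 3)
        ((dg fun k => max (g k - μ) 0) - s • (H + θ • F)) =
      trF (fun x : ℝ => (max x 0) ^ 3)
        ((dg fun k => max (g k - μ) 0) - s • (H + θ • F)) :=
    fun s => tf_eq_trF (isHermitian_sub_smul hX' hH'.isHermitian s) _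
  unfold J3
  simp_rw [e1, e2]
  refine integral_mono_of_nonneg ?_ (integrableOn_trF_pos (by norm_num) hX' hH') ?_
  · exact Filter.Eventually.of_forall fun s =>
      trF_nonneg (fun x => pow_nonneg (le_max_right _ _) _) _
  · refine (ae_restrict_iff' measurableSet_Ioi).2 (Filter.Eventually.of_forall fun s hs => ?_)
    have hs0 : (0 : ℝ) ≤ s := le_of_lt hs
    show trF (fun x : ℝ => (max x 0) ^ 3) (dg g - μ • (1 : Matrix κ κ ℂ) - s • H) ≤
      trF (fun x : ℝ => (max x 0) ^ 3) ((dg fun k => max (g k - μ) 0) - s • (H + θ • F))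
    by_cases hcase : s * θ ≤ 1
    · apply trF_mono (convexOn_posPow_nat (by norm_num)) (monotone_posPow_nat 3)
        (isHermitian_sub_smul hX hH.isHermitian s) (isHermitian_sub_smul hX' hH'.isHermitian s)
      have e : (dg fun k => max (g k - μ) 0) - s • (H + θ • F) -
          (dg g - μ • (1 : Matrix κ κ ℂ) - s • H) = (1 - s * θ) • F := by
        rw [hXF]
        module
      rw [e]
      exact hFp.smul (sub_nonneg.2 hcase)
    · push Not at hcase
      rw [trF_posPow_zero (by norm_num)]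
      · exact trF_nonneg (fun x => pow_nonneg (le_max_right _ _) _) _
      · have e : -(dg g - μ • (1 : Matrix κ κ ℂ) - s • H) =
            s • (H - θ • dg g) + (s * θ - 1) • dg g + μ • (1 : Matrix κ κ ℂ) := by
          module
        rw [e]
        exact ((hθH.smul hs0).add ((dg_psd fun k => (hg k).le).smul
          (sub_pos.2 hcase).le)).add (PosSemidef.one.smul hμ)

end Pool.Agent.Lib_helper13.GC34
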