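import Mathlib

/-!
# Isotropy of commutator forms in a plane of Hermitian matrices
-/

open scoped BigOperators ComplexOrder Kronecker MatrixOrder
open Matrix

namespace Pool.Agent.Lib_helper13.GC34

variable {n : Type} [Fintype n] [DecidableEq n]

/-- algebraic core: `P` commutes with `X`, `Q` commutes with `Z`, `C = a X + b Z + c`. -/
theorem trace_iso_core {C X Z P Q : Matrix n n ℂ} (hP : P * X = X * P) (hQ : Q * Z = Z * Q)
    (a b c : ℂ) (hC : C = a • X + b • Z + c • (1 : Matrix n n ℂ)) :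
    (C * P * Q).trace = (C * Q * P).trace := by
  have e1 : (X * P * Q).trace = (X * Q * P).trace := by
    rw [← hP, mul_assoc, trace_mul_comm P, mul_assoc]
  have e2 : (Z * P * Q).trace = (Z * Q * P).trace := by
    calc (Z * P * Q).trace = (P * (Q * Z)).trace := by
          rw [mul_assoc, trace_mul_comm, mul_assoc]
      _ = (Z * Q * P).trace := by rw [hQ, trace_mul_comm]
  have e3 : (P * Q).trace = (Q * P).trace := trace_mul_comm P Q
  rw [hC]
  simp only [add_mul, smul_mul_assoc, one_mul, trace_add, trace_smul, e1, e2, e3]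

/-- for commuting `X`, `Z` functions of them commute -/
theorem cfc_comm_cfc {X Z : Matrix n n ℂ} (hX : X.IsHermitian) (hZ : Z.IsHermitian)
    (h : X * Z = Z * X) (f g : ℝ → ℝ) : cfc f X * cfc g Z = cfc g Z * cfc f X := by
  have h1 : Commute X Z := h
  have hXs : IsSelfAdjoint X := hX
  have hZs : IsSelfAdjoint Z := hZ
  have h2 : Commute (cfc f X) Z := by
    apply h1.cfc_real
  exact (h2.symm.cfc_real g).symm

/-- Isotropy: `X = x₁ C + x₂ D + x₀`, `Z = z₁ C + z₂ D + z₀`. -/
theorem trace_iso {C D X Z : Matrix n n ℂ} (hC : C.IsHermitian) (hD : D.IsHermitian)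
    (x0 x1 x2 z0 z1 z2 : ℝ)
    (hX : X = (x1 : ℂ) • C + (x2 : ℂ) • D + (x0 : ℂ) • (1 : Matrix n n ℂ))
    (hZ : Z = (z1 : ℂ) • C + (z2 : ℂ) • D + (z0 : ℂ) • (1 : Matrix n n ℂ)) (f g : ℝ → ℝ) :
    (C * cfc f X * cfc g Z).trace = (C * cfc g Z * cfc f X).trace := by
  have hXh : X.IsHermitian := by
    rw [hX]
    simp only [IsHermitian, conjTranspose_add, conjTranspose_smul, hC.eq, hD.eq,
      conjTranspose_one, Complex.star_def, Complex.conj_ofReal]
  have hZh : Z.IsHermitian := by
    rw [hZ]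
    simp only [IsHermitian, conjTranspose_add, conjTranspose_smul, hC.eq, hD.eq,
      conjTranspose_one, Complex.star_def, Complex.conj_ofReal]
  by_cases hdet : x1 * z2 - x2 * z1 = 0
  · have hdet' : ((x1 : ℂ) * z2 - x2 * z1) = 0 := by exact_mod_cast hdet
    have hc : X * Z = Z * X := by
      have : X * Z - Z * X = ((x1 : ℂ) * z2 - x2 * z1) • (C * D - D * C) := by
        rw [hX, hZ]
        simp only [mul_add, add_mul, smul_mul_assoc, mul_smul_comm, mul_one, one_mul, sub_smul,
          smul_sub, smul_add, smul_smul]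
        ext i j
        simp only [Matrix.add_apply, Matrix.sub_apply, Matrix.smul_apply, smul_eq_mul]
        ring
      rw [hdet', zero_smul] at this
      exact sub_eq_zero.1 this
    rw [mul_assoc, cfc_comm_cfc hXh hZh hc f g, ← mul_assoc]
  · have hdet' : ((x1 : ℂ) * z2 - x2 * z1) ≠ 0 := by exact_mod_cast hdet
    have h1 : cfc f X * X = X * cfc f X := (Commute.refl X).cfc_real f
    have h2 : cfc g Z * Z = Z * cfc g Z := (Commute.refl Z).cfc_real g
    refine trace_iso_core h1 h2 ((z2 : ℂ) / ((x1 : ℂ) * z2 - x2 * z1))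
      (-(x2 : ℂ) / ((x1 : ℂ) * z2 - x2 * z1))
      (-((z2 : ℂ) * x0 - x2 * z0) / ((x1 : ℂ) * z2 - x2 * z1)) ?_
    rw [hX, hZ]
    ext i j
    simp only [Matrix.add_apply, Matrix.smul_apply, smul_eq_mul]
    calc C i j = ((x1 : ℂ) * z2 - x2 * z1) * C i j / ((x1 : ℂ) * z2 - x2 * z1) :=
          (mul_div_cancel_left₀ _ hdet').symm
      _ = _ := by ring

/-- Isotropy with real scalars acting by `•`: `X, Z ∈ span_ℝ (C, D, 1)`. -/
theorem trace_iso_real {C D X Z : Matrix n n ℂ} (hC : C.IsHermitian) (hD : D.IsHermitian)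
    (x0 x1 x2 z0 z1 z2 : ℝ)
    (hX : X = x1 • C + x2 • D + x0 • (1 : Matrix n n ℂ))
    (hZ : Z = z1 • C + z2 • D + z0 • (1 : Matrix n n ℂ)) (f g : ℝ → ℝ) :
    (C * cfc f X * cfc g Z).trace = (C * cfc g Z * cfc f X).trace := by
  refine trace_iso hC hD x0 x1 x2 z0 z1 z2 ?_ ?_ f g
  · rw [hX]
    ext i j
    simp only [Matrix.add_apply, Matrix.smul_apply, Complex.real_smul, smul_eq_mul]
  · rw [hZ]
    ext i j
    simp only [Matrix.add_apply, Matrix.smul_apply, Complex.real_smul, smul_eq_mul]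

end Pool.Agent.Lib_helper13.GC34
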