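import Mathlib
import Pool.Agent.Lib_helper13.GC34.Cmp

/-!
# The truncation `F = (lam - C)_+`
-/

open scoped BigOperators ComplexOrder Kronecker MatrixOrder
open Matrix MeasureTheory Set

namespace Pool.Agent.Lib_helper13.GC34

variable {n : Type} [Fintype n] [DecidableEq n]

theorem cfc_posSemidef {f : ℝ → ℝ} (hf : ∀ x, 0 ≤ f x) (M : Matrix n n ℂ) :
    (cfc f M).PosSemidef := by
  rw [← Matrix.nonneg_iff_posSemidef]
  exact cfc_nonneg fun x _ => hf x

theorem trunc_psd (C : Matrix n n ℂ) (lam : ℝ) :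
    (cfc (fun x : ℝ => max (lam - x) 0) C).PosSemidef :=
  cfc_posSemidef (fun _ => le_max_right _ _) C

theorem cfc_const_add_id {C : Matrix n n ℂ} (hC : C.IsHermitian) (lam : ℝ) :
    cfc (fun x : ℝ => x - lam) C = C - lam • (1 : Matrix n n ℂ) := by
  have hs : IsSelfAdjoint C := hC
  rw [cfc_sub (fun x : ℝ => x) (fun _ => lam) C, cfc_id' ℝ C, cfc_const lam C,
    Algebra.algebraMap_eq_smul_one]

/-- `C + F = max(C, lam)` -/
theorem add_trunc {C : Matrix n n ℂ} (hC : C.IsHermitian) (lam : ℝ) :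
    C + cfc (fun x : ℝ => max (lam - x) 0) C = cfc (fun x : ℝ => max x lam) C := by
  have hs : IsSelfAdjoint C := hC
  conv_lhs => enter [1]; rw [← cfc_id' ℝ C]
  rw [← cfc_add C (fun x : ℝ => x) (fun x : ℝ => max (lam - x) 0)]
  congr 1
  ext x
  rcases le_total x lam with h | h
  · rw [max_eq_left (by linarith), max_eq_right h]; ring
  · rw [max_eq_right (by linarith), max_eq_left h]; ring

/-- `C + F - lam = (C - lam)_+` -/
theorem add_trunc_sub {C : Matrix n n ℂ} (hC : C.IsHermitian) (lam : ℝ) :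
    C + cfc (fun x : ℝ => max (lam - x) 0) C - lam • (1 : Matrix n n ℂ) =
      cfc (fun x : ℝ => max x 0) (C - lam • (1 : Matrix n n ℂ)) := by
  have hs : IsSelfAdjoint C := hC
  rw [add_trunc hC]
  have h1 : cfc (fun x : ℝ => max x lam) C - lam • (1 : Matrix n n ℂ) =
      cfc (fun x : ℝ => max x lam - lam) C := by
    rw [cfc_sub (fun x : ℝ => max x lam) (fun _ => lam) C, cfc_const lam C,
      Algebra.algebraMap_eq_smul_one]
  rw [h1, ← cfc_const_add_id hC lam, ← cfc_comp' (fun x : ℝ => max x 0) (fun x : ℝ => x - lam) C]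
  congr 1
  ext x
  rcases le_total x lam with h | h
  · rw [max_eq_right h, max_eq_right (by linarith)]; ring
  · rw [max_eq_left h, max_eq_left (by linarith)]

/-- the enlarged `H` -/
theorem hat_posDef {C D F : Matrix n n ℂ} {b β : ℝ} (hF : F.PosSemidef) (hb : 0 < b)
    (hβ : β ≤ b) (hH : (C + β • D).PosDef) :
    ((C + F) + β • (D - b⁻¹ • F)).PosDef := by
  have e : (C + F) + β • (D - b⁻¹ • F) = (C + β • D) + (1 - β * b⁻¹) • F := by
    module
  rw [e]
  apply hH.add_posSemidef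
  apply hF.smul
  rw [sub_nonneg, ← div_eq_mul_inv, div_le_one hb]
  exact hβ

theorem hat_end {C D F : Matrix n n ℂ} {b : ℝ} (hb : 0 < b) :
    (C + F) + b • (D - b⁻¹ • F) = C + b • D := by
  rw [smul_sub, smul_smul, mul_inv_cancel₀ hb.ne', one_smul]
  abel

/-- **Block B3, concrete form**: `Ĉ = max(C, lam)`, `D̂ = D - b⁻¹ (lam - C)_+`. -/
theorem comparison_trunc {C D : Matrix n n ℂ} {b β lam : ℝ} (p : ℕ) (hp : 1 ≤ p)
    (hC : C.PosSemidef) (hD : D.IsHermitian) (hb : 0 < b)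
    (hE : (C + b • D).PosSemidef) (hβ0 : 0 ≤ β) (hβ : β ≤ b) (hlam : 0 ≤ lam)
    (hH : (C + β • D).PosDef) :
    ∫ s in Ioi (0 : ℝ), (trace (cfc (fun x : ℝ => (max x 0) ^ p)
        (C - lam • (1 : Matrix n n ℂ) - s • (C + β • D)))).re ≤
      ∫ s in Ioi (0 : ℝ), (trace (cfc (fun x : ℝ => (max x 0) ^ p)
        (cfc (fun x : ℝ => max x 0) (C - lam • (1 : Matrix n n ℂ)) -
          s • (cfc (fun x : ℝ => max x lam) C +
            β • (D - b⁻¹ • cfc (fun x : ℝ => max (lam - x) 0) C))))).re := by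
  have h := comparison_integral (lam := lam) p hp hC hD (trunc_psd C lam) hb hE hβ0 hlam
    (hat_posDef (trunc_psd C lam) hb hβ hH)
  rw [add_trunc_sub hC.isHermitian, add_trunc hC.isHermitian] at h
  exact h

end Pool.Agent.Lib_helper13.GC34
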